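import Pool.Agent.Helper63.P705.NR.Goals

/-!
# MP_705522_gt, packet NR-GO1
-/

namespace Pool.Agent.Helper55.NR

open MeasureTheory Set Filter Topology
open Pool.Agent.Helper53.PT
open Pool.Agent.Helper63.P705.NR

theorem hasDerivAt_exp_half (s : ℝ) :
    HasDerivAt (fun s : ℝ => Real.exp (s / 2)) (Real.exp (s / 2) / 2) s := by
  have h : HasDerivAt (fun s : ℝ => s / 2) (1 / 2) s := (hasDerivAt_id s).div_const 2
  have h2 := h.exp
  refine h2.congr_deriv ?_
  ring

theorem gO1 : GO1 := by
  intro hRR θ ht0 ht1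
  have h0 : 0 < θ := by linarith
  have hde : 0 < de θ := by unfold de; linarith
  have hd0 : ∀ x, HasDerivAt (f0 θ) (-(f1 θ x) / 2) x := fun x => hasDerivAt_f0 h0 ht1 x
  have hd1 : ∀ x, HasDerivAt (f1 θ) (f2 θ x) x := fun x => hasDerivAt_f1 h0 ht1 x
  have hG : ∀ s, HasDerivAt (fun s => GG θ s * Real.exp (s / 2)) (RR θ s * Real.exp (s / 2) / 2) s := by
    intro s
    have hg : HasDerivAt (GG θ) ((f2 θ s - -(f1 θ s) / 2) / de θ) s :=
      ((hd1 s).sub (hd0 s)).div_const (de θ)
    have h := hg.mul (hasDerivAt_exp_half s)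
    refine h.congr_deriv ?_
    simp only [GG, RR]
    field_simp
    ring
  have hE : ∀ s, HasDerivAt (fun s => f0 θ s * Real.exp (s / 2))
      (-(de θ / 2) * (GG θ s * Real.exp (s / 2))) s := by
    intro s
    have h := (hd0 s).mul (hasDerivAt_exp_half s)
    refine h.congr_deriv ?_
    simp only [GG]
    field_simp
    ring
  have hz : GG θ 0 = 0 := by
    simp only [GG]
    rw [f1_zero h0 ht1, f0_zero h0 ht1]
    simp
  have hmono : MonotoneOn (fun s => GG θ s * Real.exp (s / 2)) (Ici 0) := by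
    apply monotoneOn_of_deriv_nonneg (convex_Ici 0)
    · exact fun s _ => (hG s).continuousAt.continuousWithinAt
    · exact fun s _ => (hG s).differentiableAt.differentiableWithinAt
    · intro s hs
      rw [interior_Ici] at hs
      rw [(hG s).deriv]
      have hs0 : 0 < s := hs
      have h1 := hRR θ ht0 ht1 (Real.sqrt s) (Real.sqrt_pos.2 hs0)
      rw [Real.sq_sqrt hs0.le] at h1
      have := Real.exp_pos (s / 2)
      positivity
  have hnn : ∀ s, 0 ≤ s → 0 ≤ GG θ s := by
    intro s hs
    have h := hmono (mem_Ici.2 le_rfl) (mem_Ici.2 hs) hs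
    simp only [hz, zero_mul] at h
    exact nonneg_of_mul_nonneg_left h (Real.exp_pos _)
  have hanti : AntitoneOn (fun s => f0 θ s * Real.exp (s / 2)) (Ici 0) := by
    apply antitoneOn_of_deriv_nonpos (convex_Ici 0)
    · exact fun s _ => (hE s).continuousAt.continuousWithinAt
    · exact fun s _ => (hE s).differentiableAt.differentiableWithinAt
    · intro s hs
      rw [interior_Ici] at hs
      rw [(hE s).deriv]
      have hs0 : 0 < s := hs
      have h1 := hnn s hs0.le
      have h2 := Real.exp_pos (s / 2)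
      have h3 : 0 ≤ de θ / 2 * (GG θ s * Real.exp (s / 2)) := by positivity
      linarith
  refine ⟨hG, hE, hz, hnn, hmono, hanti, ?_⟩
  intro s hs
  have h := hanti (mem_Ici.2 le_rfl) (mem_Ici.2 hs) hs
  simp only [f0_zero h0 ht1, zero_div, Real.exp_zero, mul_one] at h
  have h2 : f0 θ s = (f0 θ s * Real.exp (s / 2)) * Real.exp (-s / 2) := by
    rw [mul_assoc, ← Real.exp_add]
    have : s / 2 + -s / 2 = 0 := by ring
    rw [this, Real.exp_zero, mul_one]
  rw [h2]
  exact mul_le_of_le_one_left (Real.exp_pos _).le h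

end Pool.Agent.Helper55.NR
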